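import Pool.Agent.H477R3.K5.Count

set_option autoImplicit false

/-!
# 5-planar graphs: `e₅(n) ≥ 6.3 n - 120 √n`

`Drawing`, `Drawing.crossings`, `KPlanar` and `maxEdges` are defined in
`Pool/Agent/H477R3/K5/Draw.lean` and `Pool/Agent/H477R3/K5/Count.lean`:

* a drawing of a simple graph `G` consists of distinct points of the plane for the vertices and,
  for every edge, a continuous injective arc on `[0,1]` joining its two endpoints whose interior
  contains no vertex;
* a crossing of an edge `e` is a pair `(f, x)`: another edge `f` and a common interior point `x`
  of the arcs of `e` and `f`;
* `KPlanar k G`: some drawing has at most `k` crossings on every edge;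
* `maxEdges k n`: the maximum number of edges of a `k`-planar simple graph with `n` vertices.

The graphs are pieces of a doubly periodic geometric graph (all edges are straight segments) with
10 vertices and 63 edges per cell.
-/

namespace Pool.Agent.Results.MP_8a42c3_co.FivePlanarLowerBound

open Pool.Agent.H477R3.K5

theorem result (n : ℕ) : 63 / 10 * (n : ℝ) - 120 * Real.sqrt n ≤ (maxEdges 5 n : ℝ) :=
  main n

end Pool.Agent.Results.MP_8a42c3_co.FivePlanarLowerBound
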